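import Mathlib

/-!
# MP_e15572_ag: a disconnected constancy region of mixed test ideals

`R = k[x, y, z]`, `a₁ = (x z, y² z)`, `a₂ = (x² z, y z)`. The set of all `t` with
`τ(a₁^t₁ a₂^t₂) = (x z, y z)` contains `(3/2, 1/4)` and `(1/4, 3/2)` but no point of the diagonal.
-/

set_option autoImplicit false

namespace Pool.Agent.Results.MP_e15572_ag.Disconnected

open MvPolynomial

/-- The bracket power `J^[p^e]` of an ideal `J`: the ideal generated by the `p^e`-th powers of the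
elements of `J`. -/
def bracketPow {R : Type*} [CommRing R] (p : ℕ) [ExpChar R p] (e : ℕ) (J : Ideal R) : Ideal R :=
  J.map (iterateFrobenius R p e)

/-- The ideal `b^[1/p^e]`: the smallest ideal `J` with `b ⊆ J^[p^e]`. -/
def root {R : Type*} [CommRing R] (p : ℕ) [ExpChar R p] (e : ℕ) (b : Ideal R) : Ideal R :=
  sInf {J : Ideal R | b ≤ bracketPow p e J}

/-- The mixed test ideal `τ(a₁^t₁ ⋯ aₙ^tₙ) = ⋃_e (a₁^⌈t₁ p^e⌉ ⋯ aₙ^⌈tₙ p^e⌉)^[1/p^e]` of a regular
`F`-finite ring of characteristic `p`. -/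
noncomputable def testIdeal {R : Type*} [CommRing R] (p : ℕ) [ExpChar R p] {n : ℕ}
    (a : Fin n → Ideal R) (t : Fin n → ℝ) : Ideal R :=
  ⨆ e : ℕ, root p e (∏ i, a i ^ ⌈t i * (p : ℝ) ^ e⌉₊)

/-- The constancy region of `τ(a₁^c₁ ⋯ aₙ^cₙ)`. -/
def constancyRegion {R : Type*} [CommRing R] (p : ℕ) [ExpChar R p] {n : ℕ}
    (a : Fin n → Ideal R) (c : Fin n → ℝ) : Set (Fin n → ℝ) :=
  {t | (∀ i, 0 ≤ t i) ∧ testIdeal p a t = testIdeal p a c}

section kappa

variable {k : Type*} [Field k] {p : ℕ} [ExpChar k p]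

omit [ExpChar k p] in
lemma exists_functional_aux {K : Type*} [Field K] (φ : k →+* K) :
    ∃ l : K →+ k, (∀ a b, l (φ a * b) = a * l b) ∧ l 1 = 1 := by
  let _ := φ.toAlgebra
  have hinj : LinearMap.ker (Algebra.linearMap k K) = ⊥ :=
    LinearMap.ker_eq_bot.2 (algebraMap k K).injective
  obtain ⟨g, hg⟩ := LinearMap.exists_leftInverse_of_injective (Algebra.linearMap k K) hinj
  refine ⟨g.toAddMonoidHom, fun a b => ?_, ?_⟩
  · have h := g.map_smul a b
    rw [Algebra.smul_def] at h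
    exact h
  · have h := LinearMap.congr_fun hg 1
    have h1 : Algebra.linearMap k K 1 = 1 := map_one (algebraMap k K)
    have h2 : g (Algebra.linearMap k K 1) = 1 := h
    rw [h1] at h2
    exact h2

/-- There is an additive map `l : k → k` with `l (a ^ q * b) = a * l b` and `l 1 = 1`. -/
lemma exists_functional (k : Type*) [Field k] (p : ℕ) [ExpChar k p] (e : ℕ) :
    ∃ l : k →+ k, (∀ a b, l (a ^ p ^ e * b) = a * l b) ∧ l 1 = 1 :=
  exists_functional_aux (iterateFrobenius k p e)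

variable {σ : Type*}

/-- The Cartier operator `k[x] → k[x]` which maps `a x ^ (q v + r)` to `l(a) x ^ v` and the
monomials with exponents not congruent to `r` to zero. -/
noncomputable def kap (l : k →+ k) (q : ℕ) (r : σ →₀ ℕ) : MvPolynomial σ k →+ MvPolynomial σ k :=
  open Classical in
  (Finsupp.liftAddHom fun v : σ →₀ ℕ =>
    if v.mapRange (· % q) (Nat.zero_mod q) = r then
      ((monomial (v.mapRange (· / q) (Nat.zero_div q)) : k →ₗ[k] MvPolynomial σ k) :
        k →+ MvPolynomial σ k).comp l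
    else 0).comp (AddMonoidAlgebra.coeffAddEquiv (R := k) (M := σ →₀ ℕ)).toAddMonoidHom

lemma kap_monomial (l : k →+ k) (q : ℕ) (r v : σ →₀ ℕ) (a : k)
    (h : v.mapRange (· % q) (Nat.zero_mod q) = r) :
    kap l q r (monomial v a) = monomial (v.mapRange (· / q) (Nat.zero_div q)) (l a) := by
  have : kap l q r (monomial v a) = _ := Finsupp.liftAddHom_apply_single _ v a
  rw [this, if_pos h]
  rfl

lemma kap_monomial_ne (l : k →+ k) (q : ℕ) (r v : σ →₀ ℕ) (a : k)
    (h : ¬ v.mapRange (· % q) (Nat.zero_mod q) = r) :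
    kap l q r (monomial v a) = 0 := by
  have : kap l q r (monomial v a) = _ := Finsupp.liftAddHom_apply_single _ v a
  rw [this, if_neg h]
  rfl

lemma kap_monomial_mul (l : k →+ k) (q : ℕ) (hq : 0 < q)
    (hl : ∀ a b, l (a ^ q * b) = a * l b) (r v : σ →₀ ℕ) (a : k)
    (s : MvPolynomial σ k) :
    kap l q r (monomial v a ^ q * s) = monomial v a * kap l q r s := by
  induction s using MvPolynomial.induction_on' with
  | add f g hf hg => rw [mul_add, map_add, map_add, mul_add, hf, hg]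
  | monomial w b =>
    rw [monomial_pow, monomial_mul]
    by_cases h : ((q • v + w : σ →₀ ℕ)).mapRange (· % q) (Nat.zero_mod q) = r
    · have h' : w.mapRange (· % q) (Nat.zero_mod q) = r := by
        rw [← h]
        ext i
        simp
      rw [kap_monomial l q r _ _ h, kap_monomial l q r _ _ h', monomial_mul, hl]
      have : ((q • v + w : σ →₀ ℕ)).mapRange (· / q) (Nat.zero_div q) =
          v + w.mapRange (· / q) (Nat.zero_div q) := by
        ext i
        simp [Nat.mul_add_div hq]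
      rw [this]
    · have h' : ¬ w.mapRange (· % q) (Nat.zero_mod q) = r := by
        intro h'
        apply h
        rw [← h']
        ext i
        simp
      rw [kap_monomial_ne l q r _ _ h, kap_monomial_ne l q r _ _ h', mul_zero]

lemma kap_pow_mul (l : k →+ k) (e : ℕ) (hl : ∀ a b, l (a ^ p ^ e * b) = a * l b)
    (r : σ →₀ ℕ) (g s : MvPolynomial σ k) :
    kap l (p ^ e) r (g ^ p ^ e * s) = g * kap l (p ^ e) r s := by
  have hq : 0 < p ^ e := expChar_pow_pos k p e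
  induction g using MvPolynomial.induction_on' with
  | add f g hf hg => rw [add_pow_expChar_pow, add_mul, map_add, add_mul, hf, hg]
  | monomial v a => exact kap_monomial_mul l _ hq hl r v a s

lemma kap_mem (l : k →+ k) (e : ℕ) (hl : ∀ a b, l (a ^ p ^ e * b) = a * l b)
    (r : σ →₀ ℕ) (J : Ideal (MvPolynomial σ k)) (b : MvPolynomial σ k)
    (hb : b ∈ bracketPow p e J) : kap l (p ^ e) r b ∈ J := by
  rw [bracketPow, Ideal.map] at hb
  have key : ∀ c : MvPolynomial σ k, kap l (p ^ e) r (c * b) ∈ J := by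
    induction hb using Submodule.span_induction with
    | mem x hx =>
      intro c
      obtain ⟨y, hy, rfl⟩ := hx
      have h := kap_pow_mul l e hl r y c
      rw [iterateFrobenius_def, mul_comm, h]
      exact J.mul_mem_right _ hy
    | zero => intro c; rw [mul_zero, map_zero]; exact J.zero_mem
    | add x y _ _ hx hy => intro c; rw [mul_add, map_add]; exact J.add_mem (hx c) (hy c)
    | smul d x hx ih =>
      intro c
      rw [smul_eq_mul, ← mul_assoc]
      exact ih _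
  have h := key 1
  rwa [one_mul] at h

/-- If the monomial `x^u` lies in `J^[q]` then `x^⌊u/q⌋` lies in `J`. -/
lemma monomial_mem (e : ℕ) (J : Ideal (MvPolynomial σ k)) (u : σ →₀ ℕ)
    (hb : (monomial u 1 : MvPolynomial σ k) ∈ bracketPow p e J) :
    (monomial (u.mapRange (· / p ^ e) (Nat.zero_div _)) 1 : MvPolynomial σ k) ∈ J := by
  obtain ⟨l, hl, hl1⟩ := exists_functional k p e
  have h := kap_mem l e hl (u.mapRange (· % p ^ e) (Nat.zero_mod _)) J _ hb
  rwa [kap_monomial l _ _ _ _ rfl, hl1] at h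

end kappa

section three

variable {k : Type*} [Field k]

/-- The monomial `x^a y^b z^c`. -/
noncomputable def mon (k : Type*) [Field k] (a b c : ℕ) : MvPolynomial (Fin 3) k :=
  X 0 ^ a * X 1 ^ b * X 2 ^ c

lemma mon_eq (a b c : ℕ) : mon k a b c =
    monomial (Finsupp.equivFunOnFinite.symm ![a, b, c]) 1 := by
  have h : (Finsupp.equivFunOnFinite.symm ![a, b, c] : Fin 3 →₀ ℕ) =
      Finsupp.single 0 a + Finsupp.single 1 b + Finsupp.single 2 c := by
    ext i
    fin_cases i <;> simp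
  rw [h, mon, X_pow_eq_monomial, X_pow_eq_monomial, X_pow_eq_monomial, monomial_mul, monomial_mul,
    one_mul, one_mul]

lemma mon_mul (a b c a' b' c' : ℕ) :
    mon k a b c * mon k a' b' c' = mon k (a + a') (b + b') (c + c') := by
  simp only [mon, pow_add]
  ring

lemma mon_pow (a b c n : ℕ) : mon k a b c ^ n = mon k (n * a) (n * b) (n * c) := by
  simp only [mon, mul_pow, ← pow_mul, mul_comm n]

lemma mon_dvd {a b c a' b' c' : ℕ} (ha : a ≤ a') (hb : b ≤ b') (hc : c ≤ c') :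
    mon k a b c ∣ mon k a' b' c' := by
  refine ⟨mon k (a' - a) (b' - b) (c' - c), ?_⟩
  rw [mon_mul]
  congr 1 <;> omega

variable {p : ℕ} [ExpChar k p]

lemma mon_mem (e : ℕ) (J : Ideal (MvPolynomial (Fin 3) k)) (a b c : ℕ)
    (h : mon k a b c ∈ bracketPow p e J) :
    mon k (a / p ^ e) (b / p ^ e) (c / p ^ e) ∈ J := by
  rw [mon_eq] at h
  have h1 := monomial_mem e J _ h
  have h2 : (Finsupp.equivFunOnFinite.symm ![a, b, c] : Fin 3 →₀ ℕ).mapRange (· / p ^ e)
      (Nat.zero_div _) = Finsupp.equivFunOnFinite.symm ![a / p ^ e, b / p ^ e, c / p ^ e] := by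
    ext i
    fin_cases i <;> simp
  rw [h2] at h1
  rw [mon_eq]
  exact h1

/-- If `x^a y^b z^c ∈ B` then `x^⌊a/q⌋ y^⌊b/q⌋ z^⌊c/q⌋ ∈ B^[1/q]`. -/
lemma mon_mem_root (e : ℕ) (B : Ideal (MvPolynomial (Fin 3) k)) (a b c a' b' c' : ℕ)
    (h : mon k a b c ∈ B) (ha : a < (a' + 1) * p ^ e) (hb : b < (b' + 1) * p ^ e)
    (hc : c < (c' + 1) * p ^ e) : mon k a' b' c' ∈ root p e B := by
  have hq : 0 < p ^ e := expChar_pow_pos k p e
  rw [root, Ideal.mem_sInf]
  intro J hJ
  have h1 := mon_mem e J a b c (hJ h)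
  refine J.mem_of_dvd (mon_dvd ?_ ?_ ?_) h1
  · exact Nat.lt_succ_iff.1 ((Nat.div_lt_iff_lt_mul hq).2 ha)
  · exact Nat.lt_succ_iff.1 ((Nat.div_lt_iff_lt_mul hq).2 hb)
  · exact Nat.lt_succ_iff.1 ((Nat.div_lt_iff_lt_mul hq).2 hc)

lemma mon_mem_bracket (e : ℕ) (J : Ideal (MvPolynomial (Fin 3) k)) (a b c a' b' c' : ℕ)
    (h : mon k a b c ∈ J) (ha : p ^ e * a ≤ a') (hb : p ^ e * b ≤ b')
    (hc : p ^ e * c ≤ c') : mon k a' b' c' ∈ bracketPow p e J := by
  have h1 : mon k a b c ^ p ^ e ∈ bracketPow p e J := by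
    rw [bracketPow, ← iterateFrobenius_def]
    exact Ideal.mem_map_of_mem _ h
  rw [mon_pow] at h1
  exact Ideal.mem_of_dvd _ (mon_dvd ha hb hc) h1

/-- The powers of an ideal with two generators. -/
lemma span_pair_pow_mul_le {R : Type*} [CommRing R] (x y : R) (n : ℕ) (K L : Ideal R)
    (h : ∀ i ≤ n, Ideal.span {x ^ i * y ^ (n - i)} * L ≤ K) :
    Ideal.span {x, y} ^ n * L ≤ K := by
  have h1 : (Ideal.span {x, y} : Ideal R) = Ideal.span {x} + Ideal.span {y} := by
    rw [Ideal.add_eq_sup, ← Ideal.span_insert]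
  rw [h1, add_pow, Finset.sum_mul, Ideal.sum_eq_sup]
  refine Finset.sup_le fun i hi => ?_
  have hi' : i ≤ n := by simpa [Nat.lt_succ_iff] using hi
  refine le_trans ?_ (h i hi')
  rw [Ideal.span_singleton_pow, Ideal.span_singleton_pow, Ideal.span_singleton_mul_span_singleton]
  exact Ideal.mul_mono Ideal.mul_le_left le_rfl

lemma pair_pow_mul_pair_pow_le {R : Type*} [CommRing R] (x y x' y' : R) (n n' : ℕ) (K : Ideal R)
    (h : ∀ i ≤ n, ∀ j ≤ n', (x ^ i * y ^ (n - i)) * (x' ^ j * y' ^ (n' - j)) ∈ K) :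
    Ideal.span {x, y} ^ n * Ideal.span {x', y'} ^ n' ≤ K := by
  refine span_pair_pow_mul_le x y n K _ fun i hi => ?_
  rw [mul_comm]
  refine span_pair_pow_mul_le x' y' n' K _ fun j hj => ?_
  rw [Ideal.span_singleton_mul_span_singleton, Ideal.span_singleton_le_iff_mem, mul_comm]
  exact h i hi j hj

/-- The ideals `a₁ = (x z, y² z)` and `a₂ = (x² z, y z)` of `k[x, y, z]`. -/
noncomputable def aa (k : Type*) [Field k] : Fin 2 → Ideal (MvPolynomial (Fin 3) k) :=
  ![Ideal.span {X 0 * X 2, X 1 ^ 2 * X 2}, Ideal.span {X 0 ^ 2 * X 2, X 1 * X 2}]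

/-- The ideal `(x z, y z)`. -/
noncomputable def II (k : Type*) [Field k] : Ideal (MvPolynomial (Fin 3) k) :=
  Ideal.span {X 0 * X 2, X 1 * X 2}

lemma xz : (X 0 * X 2 : MvPolynomial (Fin 3) k) = mon k 1 0 1 := by simp [mon]
lemma yz : (X 1 * X 2 : MvPolynomial (Fin 3) k) = mon k 0 1 1 := by simp [mon]
lemma yyz : (X 1 ^ 2 * X 2 : MvPolynomial (Fin 3) k) = mon k 0 2 1 := by simp [mon]
lemma xxz : (X 0 ^ 2 * X 2 : MvPolynomial (Fin 3) k) = mon k 2 0 1 := by simp [mon]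

/-- monomials in `a₁^A a₂^B` -/
lemma mem_pow_pow (A B i j : ℕ) (hi : i ≤ A) (hj : j ≤ B) :
    mon k (i + 2 * j) (2 * (A - i) + (B - j)) (A + B) ∈ aa k 0 ^ A * aa k 1 ^ B := by
  have h1 : (X 0 * X 2 : MvPolynomial (Fin 3) k) ∈ aa k 0 := Ideal.subset_span (by simp)
  have h2 : (X 1 ^ 2 * X 2 : MvPolynomial (Fin 3) k) ∈ aa k 0 := Ideal.subset_span (by simp)
  have h3 : (X 0 ^ 2 * X 2 : MvPolynomial (Fin 3) k) ∈ aa k 1 := Ideal.subset_span (by simp)
  have h4 : (X 1 * X 2 : MvPolynomial (Fin 3) k) ∈ aa k 1 := Ideal.subset_span (by simp)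
  rw [xz] at h1
  rw [yyz] at h2
  rw [xxz] at h3
  rw [yz] at h4
  have h5 := Ideal.mul_mem_mul (Ideal.mul_mem_mul (Ideal.pow_mem_pow h1 i)
    (Ideal.pow_mem_pow h2 (A - i))) (Ideal.mul_mem_mul (Ideal.pow_mem_pow h3 j)
    (Ideal.pow_mem_pow h4 (B - j)))
  rw [← pow_add, ← pow_add, Nat.add_sub_cancel' hi, Nat.add_sub_cancel' hj] at h5
  simp only [mon_pow, mon_mul] at h5
  convert h5 using 2 <;> omega

/-- an upper bound for the test ideal -/
lemma root_le (e A B : ℕ) (K : Ideal (MvPolynomial (Fin 3) k))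
    (h : ∀ i ≤ A, ∀ j ≤ B, mon k (i + 2 * j) (2 * (A - i) + (B - j)) (A + B) ∈
      bracketPow p e K) : root p e (aa k 0 ^ A * aa k 1 ^ B) ≤ K := by
  refine sInf_le ?_
  change aa k 0 ^ A * aa k 1 ^ B ≤ bracketPow p e K
  refine pair_pow_mul_pair_pow_le _ _ _ _ A B _ fun i hi j hj => ?_
  rw [xz, yyz, xxz, yz]
  simp only [mon_pow, mon_mul]
  convert h i hi j hj using 2 <;> omega

lemma xz_mem_II : mon k 1 0 1 ∈ II k := by
  rw [← xz]
  exact Ideal.subset_span (by simp)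

lemma yz_mem_II : mon k 0 1 1 ∈ II k := by
  rw [← yz]
  exact Ideal.subset_span (by simp)

lemma II_le {K : Ideal (MvPolynomial (Fin 3) k)} (h1 : mon k 1 0 1 ∈ K) (h2 : mon k 0 1 1 ∈ K) :
    II k ≤ K := by
  rw [II, Ideal.span_le]
  rintro f (rfl | rfl)
  · rw [xz]; exact h1
  · rw [yz]; exact h2

lemma root_le_II (e A B : ℕ) (h : 3 * p ^ e ≤ 2 * A + B ∨ 3 * p ^ e ≤ A + 2 * B)
    (h' : p ^ e ≤ A + B) : root p e (aa k 0 ^ A * aa k 1 ^ B) ≤ II k := by
  have hq : 0 < p ^ e := expChar_pow_pos k p e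
  refine root_le e A B _ fun i hi j hj => ?_
  by_cases h1 : p ^ e ≤ i + 2 * j
  · exact mon_mem_bracket e _ 1 0 1 _ _ _ xz_mem_II (by omega) (by omega) (by omega)
  · exact mon_mem_bracket e _ 0 1 1 _ _ _ yz_mem_II (by omega) (by omega) (by omega)

lemma testIdeal_aa (t : Fin 2 → ℝ) : testIdeal p (aa k) t =
    ⨆ e : ℕ, root p e (aa k 0 ^ ⌈t 0 * (p : ℝ) ^ e⌉₊ * aa k 1 ^ ⌈t 1 * (p : ℝ) ^ e⌉₊) := by
  simp only [testIdeal, Fin.prod_univ_two]

lemma exists_large (hp : 1 < p) (n : ℕ) : ∃ e, n ≤ p ^ e :=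
  ⟨n, (Nat.lt_pow_self hp).le⟩

/-- bounds for `⌈t q⌉` -/
lemma ceil_bound (e m n : ℕ) (hn : 0 < n) (t : ℝ) (ht : t = m / n) :
    m * p ^ e ≤ n * ⌈t * (p : ℝ) ^ e⌉₊ ∧ n * ⌈t * (p : ℝ) ^ e⌉₊ < m * p ^ e + n := by
  have hn' : (0 : ℝ) < n := by exact_mod_cast hn
  have h1 := Nat.le_ceil (t * (p : ℝ) ^ e)
  have h2 := Nat.ceil_lt_add_one (a := t * (p : ℝ) ^ e) (by rw [ht]; positivity)
  have h3 : (n : ℝ) * (t * (p : ℝ) ^ e) = m * (p : ℝ) ^ e := by
    rw [ht]
    field_simp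
  constructor
  · have : (m * p ^ e : ℝ) ≤ n * ⌈t * (p : ℝ) ^ e⌉₊ := by
      rw [← h3]
      exact mul_le_mul_of_nonneg_left h1 hn'.le
    exact_mod_cast this
  · have : (n * ⌈t * (p : ℝ) ^ e⌉₊ : ℝ) < m * (p : ℝ) ^ e + n := by
      rw [← h3]
      calc (n * ⌈t * (p : ℝ) ^ e⌉₊ : ℝ) < n * (t * (p : ℝ) ^ e + 1) :=
            mul_lt_mul_of_pos_left h2 hn'
        _ = _ := by ring
    exact_mod_cast this

lemma test_c (hp : 1 < p) : testIdeal p (aa k) ![3 / 2, 1 / 4] = II k := by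
  rw [testIdeal_aa]
  simp only [Matrix.cons_val_zero, Matrix.cons_val_one]
  apply le_antisymm
  · refine iSup_le fun e => ?_
    have h1 := ceil_bound (p := p) e 3 2 (by norm_num) (3 / 2) (by norm_num)
    have h2 := ceil_bound (p := p) e 1 4 (by norm_num) (1 / 4) (by norm_num)
    exact root_le_II e _ _ (by omega) (by omega)
  · obtain ⟨e, he⟩ := exists_large hp 64
    have h1 := ceil_bound (p := p) e 3 2 (by norm_num) (3 / 2) (by norm_num)
    have h2 := ceil_bound (p := p) e 1 4 (by norm_num) (1 / 4) (by norm_num)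
    refine le_trans ?_ (le_iSup _ e)
    set A := ⌈(3 / 2 : ℝ) * (p : ℝ) ^ e⌉₊
    set B := ⌈(1 / 4 : ℝ) * (p : ℝ) ^ e⌉₊
    refine II_le ?_ ?_
    · exact mon_mem_root e _ _ _ _ 1 0 1 (mem_pow_pow A B A 0 le_rfl (by omega)) (by omega)
        (by omega) (by omega)
    · exact mon_mem_root e _ _ _ _ 0 1 1 (mem_pow_pow A B (3 * p ^ e / 4) 0 (by omega) (by omega))
        (by omega) (by omega) (by omega)

lemma test_c' (hp : 1 < p) : testIdeal p (aa k) ![1 / 4, 3 / 2] = II k := by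
  rw [testIdeal_aa]
  simp only [Matrix.cons_val_zero, Matrix.cons_val_one]
  apply le_antisymm
  · refine iSup_le fun e => ?_
    have h1 := ceil_bound (p := p) e 3 2 (by norm_num) (3 / 2) (by norm_num)
    have h2 := ceil_bound (p := p) e 1 4 (by norm_num) (1 / 4) (by norm_num)
    exact root_le_II e _ _ (by omega) (by omega)
  · obtain ⟨e, he⟩ := exists_large hp 64
    have h1 := ceil_bound (p := p) e 3 2 (by norm_num) (3 / 2) (by norm_num)
    have h2 := ceil_bound (p := p) e 1 4 (by norm_num) (1 / 4) (by norm_num)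
    refine le_trans ?_ (le_iSup _ e)
    set B := ⌈(3 / 2 : ℝ) * (p : ℝ) ^ e⌉₊
    set A := ⌈(1 / 4 : ℝ) * (p : ℝ) ^ e⌉₊
    refine II_le ?_ ?_
    · exact mon_mem_root e _ _ _ _ 1 0 1 (mem_pow_pow A B A (3 * p ^ e / 4) le_rfl (by omega))
        (by omega) (by omega) (by omega)
    · exact mon_mem_root e _ _ _ _ 0 1 1 (mem_pow_pow A B A 0 le_rfl (by omega))
        (by omega) (by omega) (by omega)

lemma z_notMem : mon k 0 0 1 ∉ II k := by
  intro h
  have h1 : II k ≤ RingHom.ker (eval (![0, 0, 1] : Fin 3 → k)) := by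
    refine II_le ?_ ?_ <;> simp [mon, RingHom.mem_ker]
  have h2 := h1 h
  simp [mon, RingHom.mem_ker] at h2

lemma xz_notMem : mon k 1 0 1 ∉ Ideal.span {mon k 0 0 2} := by
  intro h
  rw [Ideal.mem_span_singleton] at h
  obtain ⟨f, hf⟩ := h
  have h1 := congrArg (aeval (![1, 1, Polynomial.X] : Fin 3 → Polynomial k)) hf
  simp only [mon, map_mul, map_pow, aeval_X, Matrix.cons_val_zero,
    Matrix.cons_val, one_mul, pow_one, pow_zero] at h1
  have h2 := congrArg (fun g => Polynomial.coeff g 1) h1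
  simp [Polynomial.coeff_X_pow_mul'] at h2

lemma test_diag (hp : 1 < p) (t : Fin 2 → ℝ) (ht : t 0 = t 1) (ht0 : 0 ≤ t 0) :
    testIdeal p (aa k) t ≠ II k := by
  rw [testIdeal_aa, ← ht]
  set s := t 0
  intro h
  rcases lt_or_ge s 1 with hs | hs
  · obtain ⟨n, hn⟩ := exists_nat_gt (1 / (1 - s))
    obtain ⟨e, he⟩ := exists_large hp n
    have hn0 : (0 : ℝ) < 1 - s := by linarith
    have h1 : (n : ℝ) ≤ (p : ℝ) ^ e := by exact_mod_cast he
    have h2 : 1 < (1 - s) * (p : ℝ) ^ e := by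
      have := (div_lt_iff₀' hn0).1 (lt_of_lt_of_le hn h1)
      exact this
    have h3 : ⌈s * (p : ℝ) ^ e⌉₊ < p ^ e := by
      have h4 := Nat.ceil_lt_add_one (a := s * (p : ℝ) ^ e) (by positivity)
      have h5 : (⌈s * (p : ℝ) ^ e⌉₊ : ℝ) < (p : ℝ) ^ e := by nlinarith
      exact_mod_cast h5
    apply z_notMem (k := k)
    rw [← h]
    refine (le_iSup (fun e : ℕ => root p e (aa k 0 ^ ⌈s * (p : ℝ) ^ e⌉₊ *
      aa k 1 ^ ⌈s * (p : ℝ) ^ e⌉₊)) e) ?_
    set N := ⌈s * (p : ℝ) ^ e⌉₊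
    exact mon_mem_root e _ _ _ _ 0 0 1 (mem_pow_pow N N N 0 le_rfl (by omega)) (by omega)
      (by omega) (by omega)
  · apply xz_notMem (k := k)
    have h1 : II k ≤ Ideal.span {mon k 0 0 2} := by
      rw [← h]
      refine iSup_le fun e => root_le e _ _ _ fun i hi j hj => ?_
      refine mon_mem_bracket e _ 0 0 2 _ _ _ (Ideal.mem_span_singleton_self _) (by omega)
        (by omega) ?_
      have h2 : (p ^ e : ℕ) ≤ ⌈s * (p : ℝ) ^ e⌉₊ := by
        have h3 := Nat.le_ceil (s * (p : ℝ) ^ e)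
        have h4 : ((p ^ e : ℕ) : ℝ) ≤ ⌈s * (p : ℝ) ^ e⌉₊ := by
          push_cast
          refine le_trans ?_ h3
          exact le_mul_of_one_le_left (by positivity) hs
        exact_mod_cast h4
      omega
    exact h1 xz_mem_II

end three

/-- Let `k` be a field of characteristic `p > 0`, `R = k[x, y, z]`, `a₁ = (x z, y² z)` and
`a₂ = (x² z, y z)`. The constancy region of the mixed test ideal `τ(a₁^(3/2) a₂^(1/4))`, a subset
of `ℝ²`, is not connected and not path-connected. -/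
theorem result (p : ℕ) [Fact p.Prime] (k : Type*) [Field k] [CharP k p] :
    ¬ IsConnected (constancyRegion p (aa k) ![3 / 2, 1 / 4]) ∧
      ¬ IsPathConnected (constancyRegion p (aa k) ![3 / 2, 1 / 4]) := by
  have hp : 1 < p := (Fact.out : p.Prime).one_lt
  have main : ¬ IsPreconnected (constancyRegion p (aa k) ![3 / 2, 1 / 4]) := by
    intro h
    have hU : IsOpen {t : Fin 2 → ℝ | t 1 < t 0} :=
      isOpen_lt (continuous_apply 1) (continuous_apply 0)
    have hV : IsOpen {t : Fin 2 → ℝ | t 0 < t 1} :=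
      isOpen_lt (continuous_apply 0) (continuous_apply 1)
    have hcov : constancyRegion p (aa k) ![3 / 2, 1 / 4] ⊆
        {t : Fin 2 → ℝ | t 1 < t 0} ∪ {t : Fin 2 → ℝ | t 0 < t 1} := by
      rintro t ⟨h0, ht⟩
      rw [test_c hp] at ht
      rcases lt_trichotomy (t 0) (t 1) with h1 | h1 | h1
      · exact Or.inr h1
      · exact (test_diag hp t h1 (h0 0) ht).elim
      · exact Or.inl h1
    have hne1 : (constancyRegion p (aa k) ![3 / 2, 1 / 4] ∩
        {t : Fin 2 → ℝ | t 1 < t 0}).Nonempty := by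
      refine ⟨![3 / 2, 1 / 4], ⟨fun i => ?_, rfl⟩, ?_⟩
      · fin_cases i <;> norm_num
      · change (1 / 4 : ℝ) < 3 / 2
        norm_num
    have hne2 : (constancyRegion p (aa k) ![3 / 2, 1 / 4] ∩
        {t : Fin 2 → ℝ | t 0 < t 1}).Nonempty := by
      refine ⟨![1 / 4, 3 / 2], ⟨fun i => ?_, ?_⟩, ?_⟩
      · fin_cases i <;> norm_num
      · rw [test_c hp, test_c' hp]
      · change (1 / 4 : ℝ) < 3 / 2
        norm_num
    obtain ⟨t, _, h1, h2⟩ := h _ _ hU hV hcov hne1 hne2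
    exact lt_asymm (show t 1 < t 0 from h1) (show t 0 < t 1 from h2)
  exact ⟨fun h => main h.isPreconnected, fun h => main h.isConnected.isPreconnected⟩

end Pool.Agent.Results.MP_e15572_ag.Disconnected
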